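import Pool.Agent.P8H82.FF.Stm

/-! # FF/ABS (helper45): the abstract limit theorem -/

set_option autoImplicit false

namespace Pool.Agent.P8H45.FF

open MeasureTheory Filter Topology
open Pool.Agent.P8H82.JG (dens KK S_BETA S_KKJ)
open Pool.Agent.P8H82.FF

/-- the mass of the set of shapes -/
noncomputable def mass (Q : Set (ℝ × ℝ)) : ℝ := ∫ x in Q, dens x.1 * dens x.2

theorem dens_nonneg (x : ℝ) : 0 ≤ dens x := Real.rpow_nonneg (abs_nonneg _) _

theorem mass_nonneg (Q : Set (ℝ × ℝ)) : 0 ≤ mass Q :=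
  integral_nonneg fun x => mul_nonneg (dens_nonneg _) (dens_nonneg _)

theorem dens2_int (hB : S_BETA) : Integrable (fun x : ℝ × ℝ => dens x.1 * dens x.2) :=
  hB.1.mul_prod hB.1

theorem mass_mono (hB : S_BETA) {Q Q' : Set (ℝ × ℝ)} (h : Q ⊆ Q') : mass Q ≤ mass Q' := by
  unfold mass
  refine setIntegral_mono_set (dens2_int hB).integrableOn ?_ (LE.le.eventuallyLE h)
  exact Eventually.of_forall fun x => mul_nonneg (dens_nonneg _) (dens_nonneg _)

theorem mass_univ (hB : S_BETA) :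
    mass Set.univ = (3 * Real.Gamma (1 / 3) ^ 2 / Real.Gamma (2 / 3)) ^ 2 := by
  unfold mass
  rw [Measure.restrict_univ]
  have h := integral_prod_mul (μ := (volume : Measure ℝ)) (ν := (volume : Measure ℝ)) dens dens
  rw [hB.2] at h
  rw [sq, ← h]
  rfl

theorem mass_univ_pos (hB : S_BETA) : 0 < mass Set.univ := by
  rw [mass_univ hB]
  have h1 : 0 < Real.Gamma (1 / 3) := Real.Gamma_pos_of_pos (by norm_num)
  have h2 : 0 < Real.Gamma (2 / 3) := Real.Gamma_pos_of_pos (by norm_num)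
  positivity

section
variable {α ι : Type}

/-- the count -/
noncomputable def ct (N : α → ℝ) (P : α → Prop) (X : ℝ) : ℝ := (({a | N a ≤ X ∧ P a}.ncard : ℕ) : ℝ)

theorem ct_mono {N : α → ℝ} (hf : ∀ X : ℝ, {a | N a ≤ X}.Finite) {P P' : α → Prop}
    (h : ∀ a, P a → P' a) (X : ℝ) : ct N P X ≤ ct N P' X := by
  have hs : {a | N a ≤ X ∧ P a} ⊆ {a | N a ≤ X ∧ P' a} := fun a ha => ⟨ha.1, h a ha.2⟩
  have hc := Set.ncard_le_ncard hs ((hf X).subset fun a ha => ha.1)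
  unfold ct
  exact_mod_cast hc

theorem ct_or {N : α → ℝ} (P P' : α → Prop) (X : ℝ) :
    ct N (fun a => P a ∨ P' a) X ≤ ct N P X + ct N P' X := by
  unfold ct
  have : {a | N a ≤ X ∧ (P a ∨ P' a)} = {a | N a ≤ X ∧ P a} ∪ {a | N a ≤ X ∧ P' a} := by
    ext a
    simp only [Set.mem_ofPred_eq, Set.mem_union]
    tauto
  rw [this]
  exact_mod_cast Set.ncard_union_le _ _

theorem ct_sum {N : α → ℝ} (hf : ∀ X : ℝ, {a | N a ≤ X}.Finite) {Rel : ι → α → Prop}
    (hu : ∀ a i j, Rel i a → Rel j a → i = j) (Q : ι → α → Prop) (F : Finset ι) (X : ℝ) :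
    ct N (fun a => ∃ i ∈ F, Rel i a ∧ Q i a) X = ∑ i ∈ F, ct N (fun a => Rel i a ∧ Q i a) X := by
  classical
  induction F using Finset.induction_on with
  | empty => simp [ct]
  | insert j F hj ih =>
    rw [Finset.sum_insert hj, ← ih]
    unfold ct
    have : {a | N a ≤ X ∧ ∃ i ∈ insert j F, Rel i a ∧ Q i a} =
        {a | N a ≤ X ∧ (Rel j a ∧ Q j a)} ∪ {a | N a ≤ X ∧ ∃ i ∈ F, Rel i a ∧ Q i a} := by
      ext a
      simp only [Set.mem_ofPred_eq, Set.mem_union, Finset.mem_insert, exists_eq_or_imp]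
      tauto
    rw [this, Set.ncard_union_eq ?_ ((hf X).subset fun a ha => ha.1) ((hf X).subset fun a ha => ha.1)]
    · push_cast
      rfl
    · rw [Set.disjoint_left]
      rintro a ⟨-, h1, -⟩ ⟨-, i, hi, h2, -⟩
      exact hj (hu a i j h2 h1 ▸ hi)

end

theorem abs (hB : S_BETA) (hK : S_KKJ) : S_ABS := by
  intro α ι N s Rel κ θ hθ hf hex hu hκ h1 h2
  -- the limit for finitely many types and compact sets of shapes
  have lim : ∀ (F : Finset ι) (R : ℝ), 1 ≤ R → ∀ Q : ι → Set (ℝ × ℝ),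
      (∀ i, MeasurableSet (Q i) ∧ volume (frontier (Q i)) = 0) →
      Tendsto (fun X : ℝ => ct N (fun a => ∃ i ∈ F, Rel i a ∧ s a ∈ Q i ∩ (KK R ×ˢ KK R)) X / X ^ θ)
        atTop (𝓝 (∑ i ∈ F, κ i * mass (Q i ∩ (KK R ×ˢ KK R)))) := by
    intro F R hR Q hQ
    obtain ⟨k1, k2⟩ := hK.1 R hR
    have h : ∀ i ∈ F, Tendsto (fun X : ℝ =>
        ct N (fun a => Rel i a ∧ s a ∈ Q i ∩ (KK R ×ˢ KK R)) X / X ^ θ) atTop
        (𝓝 (κ i * mass (Q i ∩ (KK R ×ˢ KK R)))) := by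
      intro i _
      refine h1 i R (Q i ∩ (KK R ×ˢ KK R)) hR ((hQ i).1.inter k1) ?_ Set.inter_subset_right
      refine measure_mono_null (frontier_inter_subset _ _) ?_
      exact measure_union_null (measure_mono_null Set.inter_subset_left (hQ i).2)
        (measure_mono_null Set.inter_subset_right k2)
    refine (tendsto_finsetSum F h).congr fun X => ?_
    rw [ct_sum hf hu (fun i a => s a ∈ Q i ∩ (KK R ×ˢ KK R)), Finset.sum_div]
  -- the other objects are few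
  have up : ∀ (F : Finset ι) (R ε : ℝ), (∀ᶠ X : ℝ in atTop,
      (({a | N a ≤ X ∧ ¬ ∃ i ∈ F, Rel i a ∧ s a ∈ KK R ×ˢ KK R}.ncard : ℕ) : ℝ) ≤ ε * X ^ θ) →
      ∀ Q : ι → Set (ℝ × ℝ), ∀ᶠ X : ℝ in atTop,
        ct N (fun a => ∃ i, Rel i a ∧ s a ∈ Q i) X / X ^ θ ≤
          ct N (fun a => ∃ i ∈ F, Rel i a ∧ s a ∈ Q i ∩ (KK R ×ˢ KK R)) X / X ^ θ + ε := by
    intro F R ε he Q
    filter_upwards [he, eventually_gt_atTop 0] with X hX hX0
    have hp : 0 < X ^ θ := Real.rpow_pos_of_pos hX0 θ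
    have h3 : ct N (fun a => ∃ i, Rel i a ∧ s a ∈ Q i) X ≤
        ct N (fun a => (∃ i ∈ F, Rel i a ∧ s a ∈ Q i ∩ (KK R ×ˢ KK R)) ∨
          ¬ ∃ i ∈ F, Rel i a ∧ s a ∈ KK R ×ˢ KK R) X := by
      refine ct_mono hf ?_ X
      rintro a ⟨i, hi, hs⟩
      by_cases hc : ∃ i ∈ F, Rel i a ∧ s a ∈ KK R ×ˢ KK R
      · left
        obtain ⟨j, hj, hj', hs'⟩ := hc
        have := hu a i j hi hj'
        subst this
        exact ⟨i, hj, hi, hs, hs'⟩
      · exact Or.inr hc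
    have h4 := h3.trans (ct_or _ _ X)
    have h5 : ct N (fun a => ¬ ∃ i ∈ F, Rel i a ∧ s a ∈ KK R ×ˢ KK R) X ≤ ε * X ^ θ := hX
    rw [div_add' _ _ _ hp.ne', div_le_div_iff_of_pos_right hp]
    exact h4.trans (add_le_add le_rfl h5)
  have hU : ∀ i : ι, MeasurableSet ((fun _ : ι => (Set.univ : Set (ℝ × ℝ))) i) ∧
      volume (frontier ((fun _ : ι => (Set.univ : Set (ℝ × ℝ))) i)) = 0 := fun i => by
    simp
  have ml : ∀ (F : Finset ι) (Q : ι → Set (ℝ × ℝ)), (∀ i, MeasurableSet (Q i)) →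
      Tendsto (fun n : ℕ => ∑ i ∈ F, κ i * mass (Q i ∩ (KK n ×ˢ KK n))) atTop
        (𝓝 (∑ i ∈ F, κ i * mass (Q i))) := fun F Q hQ =>
    tendsto_finsetSum F fun i _ => (hK.2 (Q i) (hQ i) hB.1).const_mul (κ i)
  have hsum : Summable κ := by
    obtain ⟨F₁, R₁, hR₁, hev⟩ := h2 1 one_pos
    have hub := up F₁ R₁ 1 hev (fun _ => Set.univ)
    have hlim := lim F₁ R₁ hR₁ (fun _ => Set.univ) hU
    have hC : ∀ (F : Finset ι) (n : ℕ), 1 ≤ n →
        ∑ i ∈ F, κ i * mass (Set.univ ∩ (KK n ×ˢ KK n)) ≤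
          (∑ i ∈ F₁, κ i * mass (Set.univ ∩ (KK R₁ ×ˢ KK R₁))) + 1 := by
      intro F n hn
      have hn1 : (1 : ℝ) ≤ n := by exact_mod_cast hn
      refine le_of_tendsto_of_tendsto (lim F n hn1 (fun _ => Set.univ) hU)
        (hlim.add tendsto_const_nhds) ?_
      filter_upwards [hub, eventually_gt_atTop 0] with X hX hX0
      refine le_trans ?_ hX
      have hp : 0 < X ^ θ := Real.rpow_pos_of_pos hX0 θ
      rw [div_le_div_iff_of_pos_right hp]
      refine ct_mono hf ?_ X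
      rintro a ⟨i, -, hi, -⟩
      exact ⟨i, hi, Set.mem_univ _⟩
    have hM := mass_univ_pos hB
    refine summable_of_sum_le (c := ((∑ i ∈ F₁, κ i * mass (Set.univ ∩ (KK R₁ ×ˢ KK R₁))) + 1) /
      mass Set.univ) hκ fun F => ?_
    rw [le_div_iff₀ hM, Finset.sum_mul]
    refine le_of_tendsto (ml F (fun _ => Set.univ) fun _ => MeasurableSet.univ) ?_
    filter_upwards [eventually_ge_atTop 1] with n hn
    exact hC F n hn
  refine ⟨hsum, fun Q hQ => ?_⟩
  have hsQ : Summable fun i => κ i * mass (Q i) := by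
    refine Summable.of_nonneg_of_le (fun i => mul_nonneg (hκ i) (mass_nonneg _)) (fun i => ?_)
      (hsum.mul_right (mass Set.univ))
    exact mul_le_mul_of_nonneg_left (mass_mono hB (Set.subset_univ _)) (hκ i)
  change Tendsto (fun X : ℝ => ct N (fun a => ∃ i, Rel i a ∧ s a ∈ Q i) X / X ^ θ) atTop
      (𝓝 (∑' i, κ i * mass (Q i)))
  refine tendsto_order.2 ⟨fun b hb => ?_, fun b hb => ?_⟩
  · obtain ⟨F, hF⟩ := ((tendsto_order.1 hsQ.hasSum).1 b hb).exists
    obtain ⟨n, hn, hn1⟩ := (((tendsto_order.1 (ml F Q fun i => (hQ i).1)).1 b hF).and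
      (eventually_ge_atTop 1)).exists
    have hn1' : (1 : ℝ) ≤ n := by exact_mod_cast hn1
    filter_upwards [(tendsto_order.1 (lim F n hn1' Q hQ)).1 b hn, eventually_gt_atTop 0] with X hX hX0
    refine hX.trans_le ?_
    have hp : 0 < X ^ θ := Real.rpow_pos_of_pos hX0 θ
    rw [div_le_div_iff_of_pos_right hp]
    refine ct_mono hf ?_ X
    rintro a ⟨i, -, hi, hs, -⟩
    exact ⟨i, hi, hs⟩
  · set L := ∑' i, κ i * mass (Q i) with hL
    have hε : 0 < (b - L) / 2 := by linarith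
    obtain ⟨F, R, hR, hev⟩ := h2 _ hε
    have hle : ∑ i ∈ F, κ i * mass (Q i ∩ (KK R ×ˢ KK R)) ≤ L := by
      refine le_trans (Finset.sum_le_sum fun i _ => ?_) (hsQ.sum_le_tsum F
        fun i _ => mul_nonneg (hκ i) (mass_nonneg _))
      exact mul_le_mul_of_nonneg_left (mass_mono hB Set.inter_subset_left) (hκ i)
    filter_upwards [up F R _ hev Q, (tendsto_order.1 (lim F R hR Q hQ)).2 (L + (b - L) / 2)
      (by linarith)] with X hX hX'
    linarith

end Pool.Agent.P8H45.FF
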